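import Pool.Agent.H63.TC.Defs

/-!
# Symmetric formulas which name some points
-/

set_option autoImplicit false

namespace Pool.Agent.H63.TD

open Pool.Agent.H16.TP (Circuit)

/-- The permutations of the points that preserve the colouring `χ` and fix every point in `F`. -/
def YoungF {P : Type} {b : ℕ} (χ : P → Fin b) (F : Set P) : Subgroup (Equiv.Perm P) where
  carrier := {g | (∀ x, χ (g x) = χ x) ∧ ∀ x ∈ F, g x = x}
  mul_mem' := fun {g h} hg hh => ⟨fun x => (hg.1 (h x)).trans (hh.1 x), fun x hx => by
    rw [Equiv.Perm.mul_apply, hh.2 x hx, hg.2 x hx]⟩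
  one_mem' := ⟨fun _ => rfl, fun _ _ => rfl⟩
  inv_mem' := fun {g} hg => ⟨fun x => by
    have h1 := hg.1 (g⁻¹ x)
    have h2 : g (g⁻¹ x) = x := g.apply_symm_apply x
    rw [h2] at h1
    exact h1.symm, fun x hx => by
    rw [Equiv.Perm.inv_eq_iff_eq, hg.2 x hx]⟩

/-- The formulas which are fixed by all elements of a subgroup of index at most `B` of the group of all
permutations of the points that preserve some colouring of the points with `b` colours and fix some set of
at most `N` points. -/
def SymN {S : Type} {ar : S → ℕ} {P : Type} (C : Circuit ar P) (B b N : ℕ) : Set C.N :=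
  {a | ∃ (χ : P → Fin b) (F : Set P), F.Finite ∧ F.ncard ≤ N ∧ a ∈ TC.Sym C B (YoungF χ F)}

end Pool.Agent.H63.TD
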