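import Mathlib

/-!
# Random points avoid many small sets

PROOF. If every `z` has `t` hits for some `a`, choose `a z` and `t` places `u z l` which are hit; the map
`(z, v) ↦ (a z, the hit members of R (a z), z changed at the places u z l to v l)` is injective, so
`s ^ |X| * s ^ t ≤ |A| * N ^ t * s ^ |X|`.
-/

set_option autoImplicit false

namespace Pool.Agent.H63.TD

theorem exists_pick {A X : Type} [Finite A] [Finite X] {s N t : ℕ} (hs : 0 < s)
    (R : A → Set (X × Fin s)) (hR : ∀ a, (R a).ncard ≤ N) (h : Nat.card A * N ^ t < s ^ t) :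
    ∃ z : X → Fin s, ∀ a, {x | (x, z x) ∈ R a}.ncard < t := by
  classical
  by_contra hcon
  push Not at hcon
  choose a ha using hcon
  have hu : ∀ z : X → Fin s, ∃ u : Fin t → X, Function.Injective u ∧ ∀ l, (u l, z (u l)) ∈ R (a z) := by
    intro z
    obtain ⟨T, hT, hTc⟩ := Set.exists_subset_card_eq (ha z)
    have h3 : Nat.card T = t := by rw [Nat.card_coe_set_eq, hTc]
    have hTf : Finite T := Set.toFinite T
    have e : Fin t ≃ T := (Finite.equivFinOfCardEq h3).symm
    exact ⟨fun l => (e l).1, fun x y hxy => e.injective (Subtype.ext hxy), fun l => hT (e l).2⟩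
  choose u hui hur using hu
  have hc : ∀ a, ∃ c : X × Fin s → ℕ, Set.InjOn c (R a) ∧ ∀ x ∈ R a, c x < N := by
    intro a
    have hf : Finite (R a) := Set.toFinite (R a)
    have e := Finite.equivFin (R a)
    refine ⟨fun x => if h : x ∈ R a then (e ⟨x, h⟩ : ℕ) else 0, ?_, ?_⟩
    · intro x hx y hy hxy
      simp only [dif_pos hx, dif_pos hy] at hxy
      have h1 := e.injective (Fin.ext hxy)
      exact congrArg Subtype.val h1
    · intro x hx
      simp only [dif_pos hx]
      refine lt_of_lt_of_le (e ⟨x, hx⟩).2 ?_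
      rw [Nat.card_coe_set_eq]
      exact hR a
  choose c hci hcN using hc
  obtain ⟨Φ, hΦ⟩ : ∃ Φ : (X → Fin s) × (Fin t → Fin s) → A × (Fin t → Fin N) × (X → Fin s),
      ∀ q, Φ q = (a q.1, fun l => ⟨c (a q.1) (u q.1 l, q.1 (u q.1 l)), hcN _ _ (hur q.1 l)⟩,
        Function.extend (u q.1) q.2 q.1) := ⟨fun q => _, fun _ => rfl⟩
  have hinj : Function.Injective Φ := by
    rintro ⟨z, v⟩ ⟨z', v'⟩ hq
    rw [hΦ, hΦ] at hq
    simp only [Prod.mk.injEq] at hq
    obtain ⟨h1, h2, h3⟩ := hq
    have h4 : ∀ l, u z l = u z' l ∧ z (u z l) = z' (u z' l) := by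
      intro l
      have h5 := congrArg Fin.val (congrFun h2 l)
      simp only at h5
      rw [h1] at h5
      have h6 := hur z l
      rw [h1] at h6
      have h7 := hci (a z') h6 (hur z' l) h5
      exact Prod.mk.inj h7
    have h5 : u z = u z' := funext fun l => (h4 l).1
    have h6 : v = v' := by
      funext l
      have h7 := congrFun h3 (u z l)
      rw [(hui z).extend_apply] at h7
      rw [h7, h5, (hui z').extend_apply]
    have h7 : z = z' := by
      funext x
      by_cases hx : ∃ l, u z l = x
      · obtain ⟨l, rfl⟩ := hx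
        rw [(h4 l).2, (h4 l).1]
      · have h8 := congrFun h3 x
        rw [Function.extend_apply' _ _ _ hx] at h8
        rw [h5] at hx
        rw [Function.extend_apply' _ _ _ hx] at h8
        exact h8
    rw [h6, h7]
  have h1 := Nat.card_le_card_of_injective Φ hinj
  rw [Nat.card_prod, Nat.card_prod, Nat.card_prod, Nat.card_fun, Nat.card_fun, Nat.card_fun,
    Nat.card_fin, Nat.card_fin, Nat.card_fin] at h1
  have h2 : 0 < s ^ Nat.card X := by positivity
  have h3 : s ^ t * s ^ Nat.card X ≤ (Nat.card A * N ^ t) * s ^ Nat.card X := by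
    calc s ^ t * s ^ Nat.card X = s ^ Nat.card X * s ^ t := mul_comm _ _
      _ ≤ _ := h1
      _ = (Nat.card A * N ^ t) * s ^ Nat.card X := by ring
  have h4 := Nat.le_of_mul_le_mul_right h3 h2
  omega

end Pool.Agent.H63.TD
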