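import Pool.Agent.H63.TD.Defs
import Pool.Agent.H63.TC.Sym

/-!
# Cells without named points

The permutations that preserve a colouring with less than `m` colours and fix the points in `F` move the cells
without points in `F` independently through their signs (`exists_youngF`). So the space of their group has at
most `2 ^ t` elements if `t` cells contain points in `F`.
-/

set_option autoImplicit false

namespace Pool.Agent.H63.TD

open Pool.Agent.H79.CQ (Cells Vs Vs_top)
open Pool.Agent.H42.CS (Lit Gate)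
open Pool.Agent.H16.TP (Atom Ax Circuit arm tup tup_injective sgnCells cp cp_apply cp_out sg sg_one sg_swap
  mkCells mkCells_pr ofC img_of)

variable {Rel : ℕ → Type}

theorem exists_youngF {r m b : ℕ} (hb : b < m) {P : Type} (e : Fin r × Fin m ↪ P)
    (χ : P → Fin b) (F : Set P) (i : Fin r) (hi : ∀ x, e (i, x) ∉ F) :
    ∃ τ : Fin r → Equiv.Perm (Fin m), cp e τ ∈ YoungF χ F ∧ (fun j => sg (τ j)) = Pi.single i 1 := by
  classical
  obtain ⟨x, y, hxy, hc⟩ := Fintype.exists_ne_map_eq_of_card_lt (fun x : Fin m => χ (e (i, x)))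
    (by rw [Fintype.card_fin, Fintype.card_fin]; exact hb)
  refine ⟨Pi.mulSingle i (Equiv.swap x y), ⟨fun z => ?_, fun z hz => ?_⟩, ?_⟩
  · by_cases h : z ∈ Set.range e
    · obtain ⟨⟨j, w⟩, rfl⟩ := h
      rw [cp_apply]
      by_cases hj : j = i
      · subst hj
        rw [Pi.mulSingle_eq_same]
        by_cases h1 : w = x
        · rw [h1, Equiv.swap_apply_left]
          exact hc.symm
        · by_cases h2 : w = y
          · rw [h2, Equiv.swap_apply_right]
            exact hc
          · rw [Equiv.swap_apply_of_ne_of_ne h1 h2]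
      · rw [Pi.mulSingle_eq_of_ne hj]
        rfl
    · rw [cp_out e _ h]
  · by_cases h : z ∈ Set.range e
    · obtain ⟨⟨j, w⟩, rfl⟩ := h
      have hj : j ≠ i := by
        intro hj
        rw [hj] at hz
        exact hi w hz
      rw [cp_apply, Pi.mulSingle_eq_of_ne hj]
      rfl
    · rw [cp_out e _ h]
  · funext j
    by_cases hj : j = i
    · subst hj
      rw [Pi.mulSingle_eq_same, Pi.single_eq_same, sg_swap hxy]
    · rw [Pi.mulSingle_eq_of_ne hj, Pi.single_eq_of_ne hj, sg_one]

/-- The space of the permutations that preserve `χ`, `F` and the cells. -/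
theorem sgn_cardF {r m b t : ℕ} (hm : 2 ≤ m) (hb : b < m) {P : Type} (e : Fin r × Fin m ↪ P)
    (χ : P → Fin b) (F : Set P) (ht : {x | e x ∈ F}.ncard ≤ t) :
    Nat.card (Vs (sgnCells hm e).pr (((YoungF χ F).map (tup m)).subgroupOf (sgnCells hm e).H)) ≤
      2 ^ t := by
  classical
  obtain ⟨Bd, hBd⟩ : ∃ Bd : Set (Fin r), Bd = Prod.fst '' {x | e x ∈ F} := ⟨_, rfl⟩
  have hBt : Nat.card Bd ≤ t := by
    rw [Nat.card_coe_set_eq, hBd]
    exact (Set.ncard_image_le (Set.toFinite _)).trans ht
  have hz : ∀ f ∈ Vs (sgnCells hm e).pr (((YoungF χ F).map (tup m)).subgroupOf (sgnCells hm e).H),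
      ∀ i, i ∉ Bd → f i = 0 := by
    intro f hf i hi
    have hi' : ∀ x, e (i, x) ∉ F := by
      intro x hx
      apply hi
      rw [hBd]
      exact ⟨(i, x), hx, rfl⟩
    obtain ⟨τ, h1, h2⟩ := exists_youngF hb e χ F i hi'
    have h3 : tup m (cp e τ) ∈ (sgnCells hm e).H := ⟨τ, rfl⟩
    have h4 := hf ⟨tup m (cp e τ), h3⟩ ⟨cp e τ, h1, rfl⟩
    have h5 : (sgnCells hm e).pr ⟨tup m (cp e τ), h3⟩ = fun j => sg (τ j) :=
      mkCells_pr ((tup m).comp (cp e)) _ _ _ _ _ _ _ _ τ h3
    rw [h5, h2, single_dotProduct, one_mul] at h4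
    exact h4
  have hinj : Function.Injective
      (fun (f : Vs (sgnCells hm e).pr (((YoungF χ F).map (tup m)).subgroupOf (sgnCells hm e).H))
        (i : Bd) => f.1 i.1) := by
    intro f f' h
    apply Subtype.ext
    funext i
    by_cases hi : i ∈ Bd
    · exact congrFun h ⟨i, hi⟩
    · rw [hz f.1 f.2 i hi, hz f'.1 f'.2 i hi]
  have h1 := Nat.card_le_card_of_injective _ hinj
  rw [Nat.card_fun, Nat.card_zmod] at h1
  exact h1.trans (Nat.pow_le_pow_right (by norm_num) hBt)

theorem sym_colF {n b r B t : ℕ} (hb : 1 ≤ b) (e : Fin r × Fin (b + 1) ↪ Fin n)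
    {C : Circuit (arm Rel (b + 1)) (Fin n)} {a : C.N} {χ : Fin n → Fin b} {F : Set (Fin n)}
    (ht : {x | e x ∈ F}.ncard ≤ t) (ha : a ∈ TC.Sym C B (YoungF χ F)) :
    ∃ H : Subgroup (sgnCells (by omega) e).H, Nat.card (Vs (sgnCells (by omega) e).pr H) ≤ B * 2 ^ t ∧
      ∀ g ∈ H, H16.LE.Img (ofC C) (g : Equiv.Perm (Fin (b + 1) → Fin n)) a a := by
  classical
  obtain ⟨M, hM⟩ : ∃ M : Cells 2 (Fin (b + 1) → Fin n) r, M = sgnCells (by omega) e := ⟨_, rfl⟩
  rw [← hM]
  have hti := tup_injective (m := b + 1) (by omega) (P := Fin n)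
  obtain ⟨H, hHY, hind, h2⟩ := ha
  refine ⟨(H.map (tup (b + 1))).subgroupOf M.H, ?_, ?_⟩
  · have h7 : Nat.card (Vs M.pr (((YoungF χ F).map (tup (b + 1))).subgroupOf M.H)) ≤ 2 ^ t := by
      rw [hM]
      exact sgn_cardF (by omega) (by omega) e χ F ht
    have h8 : (H.map (tup (b + 1))).subgroupOf M.H ≤
        ((YoungF χ F).map (tup (b + 1))).subgroupOf M.H :=
      Subgroup.comap_mono (Subgroup.map_mono hHY)
    have h9 : ((H.map (tup (b + 1))).subgroupOf M.H).relIndex
        (((YoungF χ F).map (tup (b + 1))).subgroupOf M.H) ≤ B := by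
      refine le_trans ?_ hind
      rw [← Subgroup.relIndex_map_map_of_injective H (YoungF χ F) hti]
      have h10 : ((H.map (tup (b + 1))).subgroupOf M.H).relIndex
          (((YoungF χ F).map (tup (b + 1))).subgroupOf M.H) =
          (H.map (tup (b + 1))).relIndex
            ((((YoungF χ F).map (tup (b + 1))).subgroupOf M.H).map M.H.subtype) :=
        Subgroup.relIndex_comap _ M.H.subtype _
      rw [h10]
      refine Subgroup.relIndex_le_of_le_right ?_ ?_
      · rw [Subgroup.subgroupOf_map_subtype]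
        exact inf_le_left
      · unfold Subgroup.relIndex
        exact Subgroup.index_ne_zero_of_finite
    exact (H16.LE.card_Vs_rel M.pr_mul h8).trans (Nat.mul_le_mul h9 h7)
  · rintro g ⟨g0, hg0, h3⟩
    have h6 := img_of (h2 g0 hg0)
    have h4 : (g : Equiv.Perm (Fin (b + 1) → Fin n)) = tup (b + 1) g0 := h3.symm
    rw [h4]
    exact h6

end Pool.Agent.H63.TD
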