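import Pool.Agent.H63.TC.Fin
import Pool.Agent.H63.TD.Sgn
import Pool.Agent.H63.TD.Pick

/-!
# Bounded depth over partially symmetric formulas which name many points

PROOF. As `H63/TC/Fin`. The points of the `r` cells are chosen at random in `r (b + 1)` disjoint blocks of
`2 N + 1` points or more, so that for each of at most `2 ^ t` formulas less than `t` of the chosen points are
named by it (`exists_pick`).
-/

set_option autoImplicit false

namespace Pool.Agent.H63.TD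

open Pool.Agent.H79.CQ (Cells Vs T Re k8 T_finite T_lits exists_cells)
open Pool.Agent.H42.CS (Lit Gate)
open Pool.Agent.H16.TP (TM TM_finite TM_lits Ax Circuit sgnCells tupCells ofC)
open Pool.Agent.H6.AC (core2)
open Pool.Agent.H63.TC (Refutation Built Sym ofR ofR_size size_ge_two built_of sym_grp)

private theorem fin_num {C1 C dd r X : ℕ} {x : ℝ} (hC1 : 2 ≤ C1) (hC : 8 * C1 ≤ C) (hX : 2 ≤ X)
    (hx0 : 0 ≤ x) (hx : x ≤ 8 ∨ x ≤ 8 * r)
    (key : (2 : ℝ) ^ ((r : ℝ) ^ (1 / (C1 : ℝ) ^ (dd + 1)) / C1) ≤ X) :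
    (2 : ℝ) ^ (x ^ (1 / (C : ℝ) ^ (dd + 1)) / C) ≤ X := by
  have hXr : (2 : ℝ) ≤ X := by exact_mod_cast hX
  have hC1r : (2 : ℝ) ≤ C1 := by exact_mod_cast hC1
  have hCr : (8 * C1 : ℝ) ≤ C := by exact_mod_cast hC
  have hC0 : (0 : ℝ) < C := by linarith
  have hC10 : (0 : ℝ) < C1 := by linarith
  obtain ⟨e, he⟩ : ∃ e : ℝ, e = 1 / (C : ℝ) ^ (dd + 1) := ⟨_, rfl⟩
  obtain ⟨e1, he1⟩ : ∃ e1 : ℝ, e1 = 1 / (C1 : ℝ) ^ (dd + 1) := ⟨_, rfl⟩
  rw [← he1] at key
  rw [← he]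
  have he0 : 0 ≤ e := by
    rw [he]
    positivity
  have hee : e ≤ e1 := by
    rw [he, he1]
    apply one_div_le_one_div_of_le (by positivity)
    exact pow_le_pow_left₀ hC10.le (by linarith) _
  have he11 : e1 ≤ 1 := by
    rw [he1, div_le_one (by positivity)]
    exact one_le_pow₀ (by linarith)
  rcases le_or_gt x 8 with h1 | h1
  · have h2 : x ^ e ≤ 8 := by
      rcases le_or_gt x 1 with h3 | h3
      · have h4 := Real.rpow_le_one hx0 h3 he0
        linarith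
      · have h4 := Real.rpow_le_rpow_of_exponent_le h3.le (hee.trans he11)
        rw [Real.rpow_one] at h4
        linarith
    calc (2 : ℝ) ^ (x ^ e / C) ≤ (2 : ℝ) ^ (1 : ℝ) := by
          apply Real.rpow_le_rpow_of_exponent_le (by norm_num)
          rw [div_le_one hC0]
          linarith
      _ = 2 := Real.rpow_one 2
      _ ≤ X := hXr
  · have hx8 : x ≤ 8 * r := by
      rcases hx with h | h
      · linarith
      · exact h
    refine le_trans ?_ key
    apply Real.rpow_le_rpow_of_exponent_le (by norm_num)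
    have h2 : x ^ e ≤ x ^ e1 := Real.rpow_le_rpow_of_exponent_le (by linarith) hee
    have h3 : x ^ e1 ≤ (8 * r : ℝ) ^ e1 := Real.rpow_le_rpow hx0 hx8 (he0.trans hee)
    rw [Real.mul_rpow (by norm_num) (Nat.cast_nonneg r)] at h3
    have h4 : (8 : ℝ) ^ e1 ≤ 8 := by
      have h5 := Real.rpow_le_rpow_of_exponent_le (x := (8 : ℝ)) (by norm_num) he11
      rwa [Real.rpow_one] at h5
    have h5 : (0 : ℝ) ≤ (r : ℝ) ^ e1 := by positivity
    have h6 : x ^ e ≤ 8 * (r : ℝ) ^ e1 := h2.trans (h3.trans (mul_le_mul_of_nonneg_right h4 h5))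
    rw [div_le_div_iff₀ hC0 hC10]
    nlinarith

/-- The lower bound for one choice of the numbers. -/
private theorem low {n b d N B r s L t m : ℕ} (hb : 1 ≤ b) (hrs : r * (b + 1) * s ≤ n) (hs : 2 * N < s)
    (hB : 1 ≤ B) (R : Refutation (TM (b + 1) (T 3)) (Fin n))
    (hR : ∀ Λ ∈ R.lines, ∀ x ∈ Λ, Built R.C (SymN R.C B b N) d x.node)
    (h1 : 300 ≤ L) (h2 : 19 * L ^ 3 ≤ r) (h3 : 1 ≤ t) (h4 : B * R.size ≤ 2 ^ t)
    (h5 : (2 * (r + 1)) ^ k8 3 ≤ 2 ^ t) (h6 : (H6.AC.cc (d + 1) 4 * (16 * t)) ^ H6.AC.cc (d + 1) 4 ≤ m)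
    (h7 : 400 * t * ((m + 1) * m) ≤ L) : False := by
  classical
  have hNF : Finite R.C.N := R.C.fin
  have hsz : Nat.card R.C.N ≤ 2 ^ t := by
    refine le_trans ?_ h4
    refine le_trans ?_ (Nat.le_mul_of_pos_left _ hB)
    unfold TC.Refutation.size
    exact Nat.le_add_right _ _
  let g : (Fin r × Fin (b + 1)) × Fin s ↪ Fin n :=
    ((Equiv.prodCongr finProdFinEquiv (Equiv.refl _)).trans finProdFinEquiv).toEmbedding.trans
      (Fin.castLEEmb hrs)
  -- the named points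
  have hF : ∀ a : R.C.N, ∃ (χ : Fin n → Fin b) (F : Set (Fin n)), F.ncard ≤ N ∧
      (a ∈ SymN R.C B b N → a ∈ Sym R.C B (YoungF χ F)) := by
    intro a
    by_cases ha : a ∈ SymN R.C B b N
    · obtain ⟨χ, F, -, hFN, hs⟩ := ha
      exact ⟨χ, F, hFN, fun _ => hs⟩
    · exact ⟨fun _ => ⟨0, by omega⟩, ∅, by simp, fun h => absurd h ha⟩
  choose χ F hFN hFs using hF
  obtain ⟨z, hz⟩ := exists_pick (A := R.C.N) (X := Fin r × Fin (b + 1)) (s := s) (N := N) (t := t)
    (by omega) (fun a => {q | g q ∈ F a}) (fun a => by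
      refine le_trans ?_ (hFN a)
      exact Set.ncard_le_ncard_of_injOn g (fun q hq => hq) (fun x _ y _ h => g.injective h)
        (Set.toFinite _))
    (by
      calc Nat.card R.C.N * N ^ t ≤ 2 ^ t * N ^ t := Nat.mul_le_mul_right _ hsz
        _ = (2 * N) ^ t := (mul_pow _ _ _).symm
        _ < s ^ t := Nat.pow_lt_pow_left hs (by omega))
  let e : Fin r × Fin (b + 1) ↪ Fin n := ⟨fun x => g (x, z x), fun x y h => by
    have h8 := g.injective h
    exact (Prod.mk.inj h8).1⟩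
  have h2t : 2 ^ t * 2 ^ t = 2 ^ (2 * t) := by
    rw [← pow_add, two_mul]
  exact core2 (p := 2) (d := 3) (r := r) (L := L) le_rfl (by omega) (by omega)
    (sgnCells (by omega) e) (ofR R) (SymN R.C B b N) (B * 2 ^ t) d (2 * t) m
    (fun a ha => sym_colF hb e (hz a).le (hFs a ha)) (fun Λ hΛ x hx => built_of (hR Λ hΛ x hx))
    (Nat.mul_pos hB (by positivity)) (by omega)
    (by
      rw [ofR_size]
      calc B * 2 ^ t * R.size = 2 ^ t * (B * R.size) := by ring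
        _ ≤ 2 ^ t * 2 ^ t := Nat.mul_le_mul_left _ h4
        _ = 2 ^ (2 * t) := h2t)
    (h5.trans (Nat.pow_le_pow_right (by norm_num) (by omega)))
    (by
      rw [show 8 * (2 * t) = 16 * t by ring]
      exact h6)
    (by
      rw [show 200 * (2 * t) = 400 * t by ring]
      simpa using h7)

theorem main : ∃ C : ℕ, 0 < C ∧ ∀ b : ℕ, 1 ≤ b →
    ∃ (S : Type) (ar : S → ℕ) (T : Set (Ax ar)), T.Finite ∧ (∀ A ∈ T, A.lits.Finite ∧ A.ex.Finite) ∧
      ∀ n : ℕ, 2 ≤ n →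
        (∃ R : Refutation T (Fin n), R.size ≤ n ^ (C * b) ∧ ∀ a, R.C.rank a ≤ C) ∧
        (∀ (d N B : ℕ) (R : Refutation T (Fin n)), 1 ≤ B →
          (∀ Λ ∈ R.lines, ∀ x ∈ Λ, Built R.C (SymN R.C B b N) d x.node) →
          (2 : ℝ) ^ (((n : ℝ) / (b * (N + 1))) ^ (1 / (C : ℝ) ^ (d + 1)) / C) ≤ B * R.size) ∧
        ∀ (Γ : Subgroup (Equiv.Perm (Fin n))) (p h d B : ℕ) (R : Refutation T (Fin n)), p.Prime →
          p ^ h ∣ Nat.card Γ → 1 ≤ B →
          (∀ Λ ∈ R.lines, ∀ x ∈ Λ, Built R.C (Sym R.C B Γ) d x.node) →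
          (2 : ℝ) ^ (((h : ℝ) / Real.logb 2 n) ^ (1 / (C : ℝ) ^ (d + 1)) / C) ≤ B * R.size := by
  obtain ⟨C0, hC0, hnum⟩ := H42.AC.num (k8 3) 8 200 (by norm_num)
  obtain ⟨C0', hC0', hnum'⟩ := H42.AC.num (k8 3) 16 400 (by norm_num)
  obtain ⟨c2, hup⟩ := TC.up 3
  obtain ⟨C1, hC1⟩ : ∃ C1, C1 = C0 + C0' := ⟨_, rfl⟩
  obtain ⟨C, hC⟩ : ∃ C, C = 8 * C1 + 2 * c2 + 7 := ⟨_, rfl⟩
  refine ⟨C, by omega, fun b hb => ⟨_, _, TM (b + 1) (T 3), TM_finite (T_finite 3),
    TM_lits fun A hA => T_lits A hA, fun n hn => ⟨?_, ?_, ?_⟩⟩⟩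
  · obtain ⟨R, hs, hr⟩ := hup (b + 1) n (by omega) hn
    refine ⟨R, hs.trans (Nat.pow_le_pow_right (by omega) ?_), fun a => ?_⟩
    · have h2 : 2 * c2 ≤ C := by omega
      nlinarith
    · have := hr a
      omega
  · intro d N B R hB hR
    have hne : Nonempty (Fin n) := ⟨⟨0, by omega⟩⟩
    obtain ⟨s, hs⟩ : ∃ s, s = 2 * N + 1 := ⟨_, rfl⟩
    obtain ⟨r, hr⟩ : ∃ r, r = n / ((b + 1) * s) := ⟨_, rfl⟩
    have hbs : 0 < (b + 1) * s := Nat.mul_pos (by omega) (by omega)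
    have hrn : r * (b + 1) * s ≤ n := by
      rw [hr, mul_assoc]
      exact Nat.div_mul_le_self n _
    have hnr : n < (r + 1) * ((b + 1) * s) := by
      have h2 := Nat.lt_mul_div_succ n hbs
      rwa [← hr, mul_comm] at h2
    have hs2 : 2 ≤ R.size := size_ge_two (ofR R)
    obtain ⟨X, hX⟩ : ∃ X, X = B * R.size := ⟨_, rfl⟩
    have hX2 : 2 ≤ X := by
      rw [hX]
      exact hs2.trans (Nat.le_mul_of_pos_left _ hB)
    have key := hnum' C1 (by omega) d r X hX2 (fun L t m h1 h2 h3 h4 h5 h6 h7 =>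
      low hb hrn (by omega) hB R hR h1 h2 h3 (by rw [← hX]; exact h4) h5 h6 h7)
    have hbr : (1 : ℝ) ≤ b := by exact_mod_cast hb
    have hN0 : (0 : ℝ) ≤ N := Nat.cast_nonneg N
    have hbN : (0 : ℝ) < b * (N + 1) := by positivity
    have hnr' : (n : ℝ) ≤ (r + 1) * (4 * (b * (N + 1))) := by
      have h4 : (n : ℝ) ≤ (r + 1) * ((b + 1) * (2 * N + 1)) := by
        rw [hs] at hnr
        exact_mod_cast hnr.le
      have h5 : ((b : ℝ) + 1) * (2 * N + 1) ≤ 4 * (b * (N + 1)) := by nlinarith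
      have h6 : (0 : ℝ) ≤ (r : ℝ) + 1 := by positivity
      exact h4.trans (mul_le_mul_of_nonneg_left h5 h6)
    have h9 := fin_num (C := C) (x := (n : ℝ) / (b * (N + 1))) (by omega) (by omega) hX2 (by positivity) (by
      rcases Nat.eq_zero_or_pos r with h0 | h0
      · left
        rw [div_le_iff₀ hbN]
        rw [h0] at hnr'
        push_cast at hnr'
        nlinarith
      · right
        rw [div_le_iff₀ hbN]
        have h5 : (1 : ℝ) ≤ r := by exact_mod_cast h0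
        nlinarith) key
    rw [hX] at h9
    push_cast at h9
    exact h9
  · intro Γ p h d B R hp hdiv hB hR
    have : Fact p.Prime := ⟨hp⟩
    have hne : Nonempty (Fin n) := ⟨⟨0, by omega⟩⟩
    obtain ⟨r, M, hM, hh⟩ := exists_cells Γ h hdiv
    have hs2 : 2 ≤ R.size := size_ge_two (ofR R)
    obtain ⟨X, hX⟩ : ∃ X, X = B * R.size := ⟨_, rfl⟩
    have hX2 : 2 ≤ X := by
      rw [hX]
      exact hs2.trans (Nat.le_mul_of_pos_left _ hB)
    have key := hnum C1 (by omega) d r X hX2 (fun L t m h1 h2 h3 h4 h5 h6 h7 =>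
      core2 (p := p) (d := 3) (r := r) (L := L) le_rfl (by omega) (by omega)
        (tupCells (m := b + 1) (by omega) M) (ofR R) (Sym R.C B Γ) B d t m
        (fun a ha => sym_grp (by omega) M Γ hM ha) (fun Λ hΛ x hx => built_of (hR Λ hΛ x hx)) hB h3
        (by rw [ofR_size, ← hX]; exact h4) h5 h6 (by simpa using h7))
    have hl1 : 1 ≤ Real.logb 2 n := by
      rw [Real.le_logb_iff_rpow_le (by norm_num) (by exact_mod_cast (by omega : 0 < n)), Real.rpow_one]
      exact_mod_cast hn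
    have hl2 : (Nat.log 2 n : ℝ) ≤ Real.logb 2 n := by
      have h1 := Real.natLog_le_logb n 2
      exact_mod_cast h1
    have h9 := fin_num (C := C) (x := (h : ℝ) / Real.logb 2 n) (by omega) (by omega) hX2 (by positivity) (by
      right
      rw [div_le_iff₀ (by linarith)]
      have h4 : (h : ℝ) ≤ r * Nat.log 2 n := by exact_mod_cast hh
      have h5 : (0 : ℝ) ≤ r := Nat.cast_nonneg r
      nlinarith) key
    rw [hX] at h9
    push_cast at h9
    exact h9

end Pool.Agent.H63.TD
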